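import Pool.Agent.Lib.helper28.PropTC

set_option autoImplicit false

namespace Pool.Agent.Results.MP_54cd88_an.NotGroth

open Pool.Agent.H28PropT

/-- Some maximal subalgebra of the Borel algebra of the Cantor space with property (T) fails the
Grothendieck property. -/
theorem result :
    ∃ B : BooleanSubalgebra (Set Cantor), Maximal HasT B ∧ ¬ HasGrothendieck B := by
  obtain ⟨M, h0, hM⟩ := exists_maximal hasT_B0
  exact ⟨M, hM, not_grothendieck hM.prop h0⟩

end Pool.Agent.Results.MP_54cd88_an.NotGroth
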